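import Pool.Agent.Lib.helper32.TowerS

set_option autoImplicit false

namespace Pool.Agent.Results.MP_7b70e8_gt.SplitCH

open Set Pool.Agent.Lib.helper32.Tau

theorem result (hCH : Cardinal.continuum.{0} = Cardinal.aleph 1) :
    ∃ X : Set ℝ, Split (Z := X) Om Ta ∧ ¬ Split (Z := X) Ta Ga := by
  obtain ⟨X, C, h1, h2⟩ := ex hCH
  refine ⟨X, h2.split, fun h3 => ?_⟩
  obtain ⟨𝓥, 𝓦, -, h4, ⟨𝓐, h5, h6⟩, -⟩ :=
    h3 _ (it_ta (fun n => (h1.1 n).isOpen) h1.ne h1.2.2.1).1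
  exact h1.nga (h5.trans (h4 ▸ subset_union_left)) h6

end Pool.Agent.Results.MP_7b70e8_gt.SplitCH
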